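import Pool.Agent.Helper392_GT.Defs5
import Pool.Agent.Helper392_GT.TLevel
import Pool.Agent.H851R3.DSHFinal
import Pool.Agent.U691.DM.Dep3

/-!
# From the free Lie algebra on `x, y` to `ℚ⟨x₀, x₁⟩` (helper691)
-/

set_option autoImplicit false

namespace Pool.Agent.U691.GT

open Pool.Agent.H777R4.DM
open Pool.Agent.Helper392_GT (F2 IsIharaDer wt DepthGE wordCoeff gx gy free_ind wt_ind toAssoc)

attribute [local instance 100] LieRing.ofAssociativeRing

/-- the embedding in the free associative algebra -/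
noncomputable def toA : F2 ℚ →ₗ⁅ℚ⁆ A := FreeLieAlgebra.lift ℚ x

lemma toA_of (i : Fin 2) : toA (FreeLieAlgebra.of ℚ i) = x i := by
  unfold toA
  rw [FreeLieAlgebra.lift_of_apply]

lemma toA_mem (u : F2 ℚ) : toA u ∈ LieX := by
  refine free_ind (fun u => toA u ∈ LieX) ?_ ?_ ?_ ?_ ?_ ?_ u
  · rw [map_zero]; exact LieX.zero_mem
  · intro a b ha hb
    rw [map_add]; exact LieX.add_mem ha hb
  · intro c a ha
    rw [map_smul]; exact LieX.smul_mem c ha
  · intro a b ha hb
    rw [LieHom.map_lie]; exact LieX.lie_mem ha hb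
  · rw [toA_of]; exact x_mem 0
  · rw [toA_of]; exact x_mem 1

lemma der_x (f : A) (i : Fin 2) : der f (x i) = if i = 1 then x 1 * f - f * x 1 else 0 := by
  show der f (wd [i]) = _
  rw [H851R3.DSH.der_wd]
  show (if i = 1 then x 1 * f - f * x 1 else 0) * wd [] + x i * 0 = _
  rw [mul_zero, add_zero, Lead2.wd_nil, mul_one]

lemma toA_der {D : LieDerivation ℚ (F2 ℚ) (F2 ℚ)} {σ : F2 ℚ} (h : IsIharaDer D σ) (u : F2 ℚ) :
    toA (D u) = der (toA σ) (toA u) := by
  refine free_ind (fun u => toA (D u) = der (toA σ) (toA u)) ?_ ?_ ?_ ?_ ?_ ?_ u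
  · simp
  · intro a b ha hb
    rw [map_add, map_add, map_add, map_add, ha, hb]
  · intro c a ha
    rw [map_smul, map_smul, map_smul, map_smul, ha]
  · intro a b ha hb
    rw [LieDerivation.apply_lie_eq_sub, map_sub, LieHom.map_lie, LieHom.map_lie, LieHom.map_lie, ha, hb,
      Ring.lie_def, Ring.lie_def, Ring.lie_def, map_sub, H851R3.DSH.der_mul,
      H851R3.DSH.der_mul]
    noncomm_ring
  · rw [h.1, map_zero, toA_of, der_x, if_neg (by decide)]
  · rw [h.2, LieHom.map_lie, toA_of, der_x, if_pos rfl, Ring.lie_def]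

lemma toA_ihara {D E : LieDerivation ℚ (F2 ℚ) (F2 ℚ)} {σ τ : F2 ℚ} (hD : IsIharaDer D σ)
    (hE : IsIharaDer E τ) : toA (⁅σ, τ⁆ + D τ - E σ) = ihara (toA σ) (toA τ) := by
  rw [map_sub, map_add, LieHom.map_lie, toA_der hD, toA_der hE, Ring.lie_def]
  rfl

lemma toAssoc_eq (u : F2 ℚ) : FreeAlgebra.equivMonoidAlgebraFreeMonoid (toAssoc ℚ u) = toA u := by
  refine free_ind (fun u => FreeAlgebra.equivMonoidAlgebraFreeMonoid (toAssoc ℚ u) = toA u)
    ?_ ?_ ?_ ?_ ?_ ?_ u
  · simp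
  · intro a b ha hb
    rw [map_add, map_add, map_add, ha, hb]
  · intro c a ha
    rw [map_smul, map_smul, map_smul, ha]
  · intro a b ha hb
    rw [LieHom.map_lie, LieHom.map_lie, Ring.lie_def, Ring.lie_def, map_sub, map_mul, map_mul, ha, hb]
  · rw [toA_of]
    unfold toAssoc
    rw [FreeLieAlgebra.lift_of_apply]
    simp [FreeAlgebra.equivMonoidAlgebraFreeMonoid, x, wd]
  · rw [toA_of]
    unfold toAssoc
    rw [FreeLieAlgebra.lift_of_apply]
    simp [FreeAlgebra.equivMonoidAlgebraFreeMonoid, x, wd]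

lemma wc_eq (u : F2 ℚ) (w : FreeMonoid (Fin 2)) : wordCoeff ℚ u w = co (toA u) (FreeMonoid.toList w) := by
  unfold wordCoeff
  rw [toAssoc_eq]
  rfl

lemma lenHom_x_mul (i : Fin 2) {P : A} {n : ℕ} (h : LenHom P n) : LenHom (x i * P) (n + 1) := by
  intro v hv
  obtain ⟨a, b, hab, ha, hb⟩ := Lead2.co_mul_ne hv
  have h1 := Lead2.co_wd_ne ha
  have h2 := h b hb
  rw [hab, ← h1, List.length_append, h2]
  simp [Nat.add_comm]

lemma lenHom_mul_x (i : Fin 2) {P : A} {n : ℕ} (h : LenHom P n) : LenHom (P * x i) (n + 1) := by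
  intro v hv
  obtain ⟨a, b, hab, ha, hb⟩ := Lead2.co_mul_ne hv
  have h1 := Lead2.co_wd_ne hb
  have h2 := h a ha
  rw [hab, ← h1, List.length_append, h2]
  simp

lemma lenHom_sub' {P Q : A} {n : ℕ} (hP : LenHom P n) (hQ : LenHom Q n) : LenHom (P - Q) n := by
  intro v hv
  rw [co_sub] at hv
  by_cases h : co P v = 0
  · rw [h, zero_sub, neg_ne_zero] at hv
    exact hQ v hv
  · exact hP v h

lemma wt_lenHom (n : ℕ) {u : F2 ℚ} (hu : u ∈ wt ℚ n) : LenHom (toA u) n := by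
  refine wt_ind (fun n u => LenHom (toA u) n) ?_ ?_ ?_ ?_ ?_ ?_ ?_ n hu
  · intro n v hv
    rw [map_zero, co_zero] at hv
    exact absurd rfl hv
  · intro n a b ha hb v hv
    rw [map_add, co_add] at hv
    by_cases h : co (toA a) v = 0
    · rw [h, zero_add] at hv
      exact hb v hv
    · exact ha v h
  · intro n c a ha v hv
    rw [map_smul, co_smul] at hv
    exact ha v (right_ne_zero_of_mul hv)
  · intro v hv
    have h1 : toA (gx ℚ) = x 0 := toA_of 0
    rw [h1] at hv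
    rw [← Lead2.co_wd_ne hv]
    rfl
  · intro v hv
    have h1 : toA (gy ℚ) = x 1 := toA_of 1
    rw [h1] at hv
    rw [← Lead2.co_wd_ne hv]
    rfl
  · intro n u _ h
    have h1 : toA (gx ℚ) = x 0 := toA_of 0
    rw [LieHom.map_lie, h1, Ring.lie_def]
    exact lenHom_sub' (lenHom_x_mul 0 h) (lenHom_mul_x 0 h)
  · intro n u _ h
    have h1 : toA (gy ℚ) = x 1 := toA_of 1
    rw [LieHom.map_lie, h1, Ring.lie_def]
    exact lenHom_sub' (lenHom_x_mul 1 h) (lenHom_mul_x 1 h)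

lemma co_adxy (m : ℕ) : co (toA (((LieAlgebra.ad ℚ (F2 ℚ) (FreeLieAlgebra.of ℚ 0)) ^ m)
    (FreeLieAlgebra.of ℚ 1))) (List.replicate m 0 ++ [1]) = 1 := by
  induction m with
  | zero =>
    rw [pow_zero, Module.End.one_apply, toA_of]
    show co (wd [1]) [1] = 1
    rw [Lead2.co_wd]
    simp
  | succ m ih =>
    rw [pow_succ', Module.End.mul_apply, LieAlgebra.ad_apply, LieHom.map_lie, toA_of, Ring.lie_def, co_sub,
      List.replicate_succ, List.cons_append, Pool.Agent.N568.DSF.co_x_mul, ih]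
    have h1 : co (toA (((LieAlgebra.ad ℚ (F2 ℚ) (FreeLieAlgebra.of ℚ 0)) ^ m)
      (FreeLieAlgebra.of ℚ 1)) * x 0) (0 :: (List.replicate m 0 ++ [1])) = 0 := by
      by_contra h
      obtain ⟨a, b, hab, ha, hb⟩ := Lead2.co_mul_ne h
      have h2 := Lead2.co_wd_ne hb
      rw [← h2] at hab
      have h3 := congrArg List.getLast? hab
      simp at h3
      rw [← List.cons_append, List.getLast?_append] at h3
      simp at h3
    rw [h1, sub_zero]

lemma soule_ne {n : ℕ} (hn : 1 ≤ n) {σ : F2 ℚ} (h : DepthGE ℚ 2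
    (σ - ((LieAlgebra.ad ℚ (F2 ℚ) (FreeLieAlgebra.of ℚ 0)) ^ (n - 1)) (FreeLieAlgebra.of ℚ 1))) :
    co (toA σ) (List.replicate (n - 1) 0 ++ [1]) = 1 := by
  have h1 := h (FreeMonoid.ofList (List.replicate (n - 1) 0 ++ [1])) (by
    rw [FreeMonoid.toList_ofList]
    simp [List.count_replicate])
  rw [wc_eq, FreeMonoid.toList_ofList, map_sub, co_sub, co_adxy] at h1
  linarith

end Pool.Agent.U691.GT
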