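import Pool.Agent.U691.GT.Br

/-!
# Many independent elements in each depth (helper691)
-/

set_option autoImplicit false

namespace Pool.Agent.U691.GT

open Pool.Agent.H777R4.DM
open Pool.Agent.Helper392_GT (F2 IsIharaDer wt DepthGE wordCoeff gx gy IharaClosed HasSoule lie_wt der_wt
  exists_der)
open Pool.Agent.H861R3.DM.LeadN (evN PhiN_wd)
open Pool.Agent.N568.DSF (Dp evN_Dp)

attribute [local instance 100] LieRing.ofAssociativeRing

/-- nested brackets -/
noncomputable def RN {n : ℕ} : List (Fin n) → Al (Fin n)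
  | [] => 0
  | [i] => wd [i]
  | i :: j :: W => wd [i] * RN (j :: W) - RN (j :: W) * wd [i]

lemma RN_cons {n : ℕ} (i : Fin n) (W : List (Fin n)) (h : W ≠ []) :
    RN (i :: W) = wd [i] * RN W - RN W * wd [i] := by
  cases W with
  | nil => exact absurd rfl h
  | cons j W => rfl

lemma wd_mem {n : ℕ} (i : Fin n) : (wd [i] : Al (Fin n)) ∈ LieN n :=
  LieSubalgebra.subset_lieSpan ⟨i, rfl⟩

lemma RN_mem {n : ℕ} : ∀ W : List (Fin n), RN W ∈ LieN n
  | [] => (LieN n).zero_mem
  | [i] => wd_mem i
  | i :: j :: W => by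
      have h := (LieN n).lie_mem (wd_mem i) (RN_mem (j :: W))
      rw [Ring.lie_def] at h
      exact h

lemma RN_perm {n : ℕ} : ∀ (W : List (Fin n)) (u : List (Fin n)), co (RN W) u ≠ 0 → u.Perm W
  | [], u, h => absurd (co_zero u) h
  | [i], u, h => by
      rw [← Lead2.co_wd_ne h]
  | i :: j :: W, u, h => by
      rw [RN_cons i (j :: W) (by simp), co_sub] at h
      by_cases h1 : co (wd [i] * RN (j :: W)) u = 0
      · rw [h1, zero_sub, neg_ne_zero] at h
        obtain ⟨a, b, hab, ha, hb⟩ := Lead2.co_mul_ne h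
        have h2 := RN_perm (j :: W) a ha
        rw [hab, ← Lead2.co_wd_ne hb]
        exact (List.perm_append_comm).trans (h2.cons i)
      · obtain ⟨a, b, hab, ha, hb⟩ := Lead2.co_mul_ne h1
        have h2 := RN_perm (j :: W) b hb
        rw [hab, ← Lead2.co_wd_ne ha]
        exact h2.cons i

lemma co_wd_mul' {n : ℕ} (i : Fin n) (P : Al (Fin n)) (u : List (Fin n)) :
    co (wd [i] * P) (i :: u) = co P u := by
  classical
  induction P using Pool.Agent.H777R4.DM.al_induction with
  | h1 l =>
    rw [← Lead2.wd_append, Lead2.co_wd, Lead2.co_wd]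
    simp
  | h2 a b ha hb => rw [mul_add, co_add, co_add, ha, hb]
  | h3 c a ha => rw [mul_smul_comm, co_smul, co_smul, ha]

lemma RN_last {n : ℕ} (L : Fin n) : ∀ (V : List (Fin n)), L ∉ V → ∀ u : List (Fin n),
    co (RN (V ++ [L])) (u ++ [L]) = if u = V then 1 else 0
  | [], _, u => by
      classical
      show co (wd [L]) (u ++ [L]) = _
      rw [Lead2.co_wd]
      by_cases hu : u = []
      · subst hu; simp
      · rw [if_neg hu, if_neg]
        intro h
        apply hu
        have := congrArg List.length h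
        rw [List.length_append] at this
        simp at this
        exact this
  | i :: V, hL, u => by
      have hi : i ≠ L := fun h => hL (by rw [h]; simp)
      have hV : L ∉ V := fun h => hL (List.mem_cons_of_mem _ h)
      rw [List.cons_append, RN_cons i (V ++ [L]) (by simp), co_sub]
      have h1 : co (RN (V ++ [L]) * wd [i]) (u ++ [L]) = 0 := by
        by_contra h
        obtain ⟨a, b, hab, _, hb⟩ := Lead2.co_mul_ne h
        rw [← Lead2.co_wd_ne hb] at hab
        have h3 := congrArg List.getLast? hab
        rw [List.getLast?_append, List.getLast?_append] at h3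
        simp at h3
        exact hi h3.symm
      rw [h1, sub_zero]
      cases u with
      | nil =>
        rw [if_neg (by simp)]
        by_contra h
        obtain ⟨a, b, hab, ha, _⟩ := Lead2.co_mul_ne h
        rw [← Lead2.co_wd_ne ha] at hab
        simp only [List.nil_append, List.cons_append, List.cons.injEq] at hab
        exact hi hab.1.symm
      | cons j u =>
        by_cases hij : i = j
        · subst hij
          rw [List.cons_append, co_wd_mul', RN_last L V hV u]
          by_cases huV : u = V
          · rw [if_pos huV, if_pos (by rw [huV])]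
          · rw [if_neg huV, if_neg (fun h => huV (List.cons.inj h).2)]
        · rw [if_neg (fun h => hij (List.cons.inj h).1.symm)]
          by_contra h
          obtain ⟨a, b, hab, ha, _⟩ := Lead2.co_mul_ne h
          rw [← Lead2.co_wd_ne ha] at hab
          simp only [List.nil_append, List.cons_append, List.cons.injEq] at hab
          exact hij hab.1.symm

/-- the coefficients of the nested brackets at words which end with their largest letter -/
lemma RN_delta {n : ℕ} (V V' : List (Fin n)) (L L' : Fin n) (h : ∀ x ∈ V, x < L) (h' : ∀ x ∈ V', x < L') :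
    co (RN (V ++ [L])) (V' ++ [L']) = if V' ++ [L'] = V ++ [L] then 1 else 0 := by
  by_cases hc : co (RN (V ++ [L])) (V' ++ [L']) = 0
  · rw [hc, if_neg]
    intro he
    rw [he, RN_last L V (fun hL => absurd (h L hL) (lt_irrefl _)), if_pos rfl] at hc
    exact one_ne_zero hc
  · have hp := RN_perm _ _ hc
    have h1 : L ≤ L' := by
      have : L ∈ V' ++ [L'] := hp.symm.subset (by simp)
      rcases List.mem_append.mp this with h2 | h2
      · exact (h' L h2).le
      · exact (List.mem_singleton.mp h2).le
    have h2 : L' ≤ L := by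
      have : L' ∈ V ++ [L] := hp.subset (by simp)
      rcases List.mem_append.mp this with h2 | h2
      · exact (h L' h2).le
      · exact (List.mem_singleton.mp h2).le
    have h3 : L = L' := le_antisymm h1 h2
    subst h3
    rw [RN_last L V (fun hL => absurd (h L hL) (lt_irrefl _))]
    by_cases h4 : V' = V
    · rw [if_pos h4, if_pos (by rw [h4])]
    · rw [if_neg h4, if_neg (fun h5 => h4 (List.append_cancel_right h5))]

/-- nested Ihara brackets stay in `V` -/
lemma nested {n : ℕ} {V : Submodule ℚ (F2 ℚ)} (hV : IharaClosed V) (σ : Fin n → F2 ℚ) (w : Fin n → ℕ)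
    (hσ : ∀ i, σ i ∈ V) (hw : ∀ i, σ i ∈ wt ℚ (w i)) : ∀ W : List (Fin n), W ≠ [] →
    ∃ τ ∈ V, τ ∈ wt ℚ ((W.map w).sum) ∧ toA τ = PhiN (fun i => toA (σ i)) (RN W)
  | [], h => absurd rfl h
  | [i], _ => by
      refine ⟨σ i, hσ i, ?_, ?_⟩
      · simpa using hw i
      · show _ = PhiN _ (wd [i])
        rw [(Pool.Agent.H358R3.DM.taskFinalN n (fun i => toA (σ i))).1]
  | i :: j :: W, _ => by
      obtain ⟨τ, hτ, hτw, hτe⟩ := nested hV σ w hσ hw (j :: W) (by simp)
      obtain ⟨D, hDx, hDy⟩ := exists_der ⁅gy ℚ, σ i⁆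
      obtain ⟨E, hEx, hEy⟩ := exists_der ⁅gy ℚ, τ⁆
      have hD : IsIharaDer D (σ i) := ⟨hDx, hDy⟩
      have hE : IsIharaDer E τ := ⟨hEx, hEy⟩
      refine ⟨⁅σ i, τ⁆ + D τ - E (σ i), hV _ (hσ i) _ hτ D E hD hE, ?_, ?_⟩
      · rw [List.map_cons, List.sum_cons]
        refine Submodule.sub_mem _ (Submodule.add_mem _ (lie_wt (hw i) hτw) (der_wt (hw i) D hDx hDy hτw)) ?_
        rw [Nat.add_comm]
        exact der_wt hτw E hEx hEy (hw i)
      · rw [toA_ihara hD hE, hτe, RN_cons i (j :: W) (by simp),
          (Pool.Agent.H358R3.DM.taskFinalN n (fun i => toA (σ i))).2 _ (wd_mem i) _ (RN_mem (j :: W)),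
          (Pool.Agent.H358R3.DM.taskFinalN n (fun i => toA (σ i))).1]

end Pool.Agent.U691.GT
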