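import Pool.Agent.U691.GT.Upper

/-!
# Order of growth in each depth: final form (helper691)
-/

set_option autoImplicit false

namespace Pool.Agent.U691.GT

open Pool.Agent.Helper392_GT

lemma arith_N {d p l c : ℕ} (hd : 1 ≤ d) (hl : d ≤ l) (hc : d * c < p) :
    p * (2 * l + d * (c % 2)) + d * (c + 1) ≤ 2 * d * (4 * p + 1) * (l / d) := by
  obtain ⟨q, hq⟩ : ∃ q, q = l / d := ⟨_, rfl⟩
  have h1 : 1 ≤ q := by
    rw [hq]
    exact (Nat.one_le_div_iff (by omega)).mpr hl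
  have h2 : l < d * (q + 1) := by
    rw [hq]
    have := Nat.lt_mul_div_succ l (show 0 < d by omega)
    exact this
  have h3 : l ≤ 2 * d * q := by
    have : d * (q + 1) ≤ 2 * d * q := by nlinarith
    omega
  have h4 : d * (c % 2) ≤ l := by
    have : d * (c % 2) ≤ d * 1 := Nat.mul_le_mul_left d (by omega)
    omega
  have h5 : p ≤ p * l := Nat.le_mul_of_pos_right p (by omega)
  rw [← hq]
  calc p * (2 * l + d * (c % 2)) + d * (c + 1) ≤ p * (3 * l) + (p * l + l) := by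
        have h6 : p * (2 * l + d * (c % 2)) ≤ p * (3 * l) := Nat.mul_le_mul_left p (by omega)
        have h7 : d * (c + 1) = d * c + d := by ring
        omega
    _ = (4 * p + 1) * l := by ring
    _ ≤ (4 * p + 1) * (2 * d * q) := Nat.mul_le_mul_left _ h3
    _ = 2 * d * (4 * p + 1) * q := by ring

theorem final (𝔤 : Submodule ℚ (F2 ℚ)) (hgrt : 𝔤 ≤ grtSub ℚ) (hbracket : IharaClosed 𝔤)
    (hsoule : HasSoule 𝔤) (d p c l : ℕ) (hd : 1 ≤ d) (hp : p.Prime) (hp2 : p ≠ 2) (hc : 1 ≤ c)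
    (hdp : d * c < p) :
    (l / d) ^ (d - 1) ≤ dimD 𝔤 (p * (2 * l + d * (c % 2)) + d * (c + 1)) d ∧
      dimD 𝔤 (p * (2 * l + d * (c % 2)) + d * (c + 1)) d ≤
        dimD (grtSub ℚ) (p * (2 * l + d * (c % 2)) + d * (c + 1)) d ∧
      dimD (grtSub ℚ) (p * (2 * l + d * (c % 2)) + d * (c + 1)) d ≤
        (p * (2 * l + d * (c % 2)) + d * (c + 1)) ^ (d - 1) ∧
      (d ≤ l → dimD (grtSub ℚ) (p * (2 * l + d * (c % 2)) + d * (c + 1)) d ≤
        (2 * d * (4 * p + 1)) ^ (d - 1) * dimD 𝔤 (p * (2 * l + d * (c % 2)) + d * (c + 1)) d) := by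
  obtain ⟨e, rfl⟩ : ∃ e, d = e + 1 := ⟨d - 1, by omega⟩
  have h1 := le_dimD 𝔤 hbracket hsoule p hp hp2 e l c hc hdp
  have h2 := dimD_le (grtSub ℚ) (p * (2 * l + (e + 1) * (c % 2)) + (e + 1) * (c + 1)) e
  simp only [Nat.add_sub_cancel]
  refine ⟨h1, dimD_mono hgrt _ _, h2, fun hl => ?_⟩
  calc dimD (grtSub ℚ) (p * (2 * l + (e + 1) * (c % 2)) + (e + 1) * (c + 1)) (e + 1)
      ≤ (p * (2 * l + (e + 1) * (c % 2)) + (e + 1) * (c + 1)) ^ e := h2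
    _ ≤ (2 * (e + 1) * (4 * p + 1) * (l / (e + 1))) ^ e := Nat.pow_le_pow_left (arith_N (by omega) hl hdp) e
    _ = (2 * (e + 1) * (4 * p + 1)) ^ e * (l / (e + 1)) ^ e := by rw [mul_pow]
    _ ≤ _ := Nat.mul_le_mul_left _ h1

/-- the same with congruences -/
theorem final' (𝔤 : Submodule ℚ (F2 ℚ)) (hgrt : 𝔤 ≤ grtSub ℚ) (hbracket : IharaClosed 𝔤)
    (hsoule : HasSoule 𝔤) (d p c N : ℕ) (hd : 1 ≤ d) (hp : p.Prime) (hp2 : p ≠ 2) (hc : 1 ≤ c)
    (hdp : d * c < p) (hN : N ≡ d * (c + 1) [MOD p]) (hN2 : N ≡ d [MOD 2])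
    (hNl : 3 * d * p + d * (c + 1) ≤ N) :
    N ^ (d - 1) ≤ (2 * d * (4 * p + 1)) ^ (d - 1) * dimD 𝔤 N d ∧
      dimD 𝔤 N d ≤ dimD (grtSub ℚ) N d ∧ dimD (grtSub ℚ) N d ≤ N ^ (d - 1) := by
  obtain ⟨q, hq⟩ : Odd p := hp.odd_of_ne_two hp2
  obtain ⟨M, hM⟩ : ∃ M, N = d * (c + 1) + p * M := by
    have h1 : p ∣ N - d * (c + 1) := (Nat.modEq_iff_dvd' (by omega)).mp hN.symm
    obtain ⟨M, hM⟩ := h1
    exact ⟨M, by omega⟩
  have hMd : 3 * d ≤ M := by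
    by_contra h
    push Not at h
    have h1 := (Nat.mul_lt_mul_left hp.pos).mpr h
    have h2 : 3 * d * p = p * (3 * d) := by ring
    omega
  have hpar : M % 2 = (d * (c % 2)) % 2 := by
    have h1 : N % 2 = d % 2 := hN2
    have h2 : (p * M) % 2 = M % 2 := by
      rw [Nat.mul_mod, hq, show (2 * q + 1) % 2 = 1 by omega, one_mul, Nat.mod_mod]
    have h3 : (d * (c + 1)) % 2 = (d * c + d) % 2 := by rw [mul_add, mul_one]
    have h4 : (d * c) % 2 = (d * (c % 2)) % 2 := by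
      rw [Nat.mul_mod d c, Nat.mul_mod d (c % 2), Nat.mod_mod]
    omega
  obtain ⟨l, hl⟩ : ∃ l, M = 2 * l + d * (c % 2) := by
    have h1 : d * (c % 2) ≤ d * 1 := Nat.mul_le_mul_left d (by omega)
    exact ⟨(M - d * (c % 2)) / 2, by omega⟩
  have hdl : d ≤ l := by
    have h1 : d * (c % 2) ≤ d * 1 := Nat.mul_le_mul_left d (by omega)
    omega
  have hNe : N = p * (2 * l + d * (c % 2)) + d * (c + 1) := by rw [hM, hl]; ring
  have h := final 𝔤 hgrt hbracket hsoule d p c l hd hp hp2 hc hdp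
  rw [← hNe] at h
  refine ⟨?_, h.2.1, h.2.2.1⟩
  calc N ^ (d - 1) ≤ (2 * d * (4 * p + 1) * (l / d)) ^ (d - 1) := by
        refine Nat.pow_le_pow_left ?_ _
        rw [hNe]
        exact arith_N hd hdl hdp
    _ = (2 * d * (4 * p + 1)) ^ (d - 1) * (l / d) ^ (d - 1) := by rw [mul_pow]
    _ ≤ _ := Nat.mul_le_mul_left _ h.1

end Pool.Agent.U691.GT
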