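import Pool.Agent.U691.GT.Fam

/-!
# The depth graded pieces have the expected order of growth (helper691)
-/

set_option autoImplicit false

namespace Pool.Agent.U691.GT

open Pool.Agent.H777R4.DM
open Pool.Agent.Helper392_GT (F2 IsIharaDer wt DepthGE wordCoeff gx gy IharaClosed HasSoule)
open Pool.Agent.H861R3.DM.LeadN (evN PhiN_wd)
open Pool.Agent.N568.DSF (Dp evN_Dp)

attribute [local instance 100] LieRing.ofAssociativeRing

lemma depth_PhiN {n : ℕ} (b : Fin n → ℕ) (hb : ∀ i, 1 ≤ b i) (ψ : Fin n → A) (hL : ∀ i, ψ i ∈ LieX)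
    (hhom : ∀ i u, co (ψ i) u ≠ 0 → u.length = 2 * b i + 1) (P : Al (Fin n)) (d : ℕ)
    (hP : ∀ u, co P u ≠ 0 → d ≤ u.length) (v : List (Fin 2)) (hv : co (PhiN ψ P) v ≠ 0) :
    d ≤ v.count 1 := by
  rw [Lead2.expand P, map_sum, Lead2.co_sum] at hv
  obtain ⟨m, hm, hm1⟩ := Finset.exists_ne_zero_of_sum_ne_zero hv
  rw [map_smul, co_smul, PhiN_wd] at hm1
  have h1 := evN_Dp ψ b hb hL hhom _ _ (right_ne_zero_of_mul hm1)
  have h2 := hP _ (left_ne_zero_of_mul hm1)
  omega

theorem main (V : Submodule ℚ (F2 ℚ)) (hV : IharaClosed V) (hs : HasSoule V) (p : ℕ) (hp : p.Prime)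
    (hp2 : p ≠ 2) (e l t : ℕ) (ht : 1 ≤ t) (he : (e + 1) * t < p) :
    ∃ τ : (Fin e → Fin (l / (e + 1))) → F2 ℚ,
      (∀ a, τ a ∈ V ∧ τ a ∈ wt ℚ (p * (2 * l + (e + 1) * (t % 2)) + (e + 1) * (t + 1)) ∧
        DepthGE ℚ (e + 1) (τ a)) ∧
      ∀ c : (Fin e → Fin (l / (e + 1))) → ℚ, DepthGE ℚ (e + 2) (∑ a, c a • τ a) → c = 0 := by
  classical
  obtain ⟨δ, hδ⟩ : ∃ δ, δ = t % 2 := ⟨_, rfl⟩
  rw [← hδ]
  have htp : t < p := lt_of_le_of_lt (Nat.le_mul_of_pos_left t (Nat.succ_pos e)) he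
  obtain ⟨q, hq⟩ : Odd p := hp.odd_of_ne_two hp2
  obtain ⟨T, hTdef⟩ : ∃ T, T = l / (e + 1) := ⟨_, rfl⟩
  rw [← hTdef]
  have hT : (e + 1) * T ≤ l := by rw [hTdef]; exact Nat.mul_div_le l (e + 1)
  have hT' : e * T + T ≤ l := by
    have : (e + 1) * T = e * T + T := by ring
    omega
  have hppos := hp.pos
  set w : Fin (l + 1) → ℕ := fun i => p * (2 * (i : ℕ) + δ) + (t + 1) with hw
  set b : Fin (l + 1) → ℕ := fun i => q * (2 * (i : ℕ) + δ) + (i : ℕ) + (δ + t) / 2 with hb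
  have hbw : ∀ i, w i = 2 * b i + 1 := by
    intro i
    rw [hw, hb]
    simp only
    have h1 : p * (2 * (i : ℕ) + δ) = 2 * (q * (2 * (i : ℕ) + δ)) + (2 * (i : ℕ) + δ) := by
      rw [hq]
      ring
    omega
  have hsoule : ∀ i, ∃ σ ∈ V, σ ∈ wt ℚ (w i) ∧ DepthGE ℚ 2
      (σ - ((LieAlgebra.ad ℚ (F2 ℚ) (FreeLieAlgebra.of ℚ 0)) ^ (w i - 1)) (FreeLieAlgebra.of ℚ 1)) := by
    intro i
    refine hs (w i) ⟨b i, hbw i⟩ ?_
    rw [hbw i, hb]
    simp only
    omega
  choose σ hσV hσw hσd using hsoule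
  have hb1 : ∀ i, 1 ≤ b i := by
    intro i
    rw [hb]
    simp only
    omega
  have hL : ∀ i, toA (σ i) ∈ LieX := fun i => toA_mem _
  have hhom : ∀ i u, co (toA (σ i)) u ≠ 0 → u.length = 2 * b i + 1 := by
    intro i u hu
    rw [← hbw i]
    exact wt_lenHom (w i) (hσw i) u hu
  have hne : ∀ i, co (toA (σ i)) (wordX [2 * b i]) ≠ 0 := by
    intro i
    have h1 := soule_ne (n := w i) (by rw [hbw i]; omega) (hσd i)
    rw [show w i - 1 = 2 * b i by rw [hbw i]; omega] at h1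
    show co (toA (σ i)) (List.replicate (2 * b i) 0 ++ [1]) ≠ 0
    rw [h1]
    exact one_ne_zero
  have hbinj : Function.Injective b := by
    intro i j hij
    have h1 := hbw i
    have h2 := hbw j
    rw [hij, ← h2, hw] at h1
    simp only at h1
    have h3 : p * (2 * (i : ℕ) + δ) = p * (2 * (j : ℕ) + δ) := by omega
    have h4 := Nat.eq_of_mul_eq_mul_left hppos h3
    exact Fin.ext (by omega)
  have hbmod : ∀ i, (2 * b i) % p ^ 1 = t := by
    intro i
    have h1 : 2 * b i = t + p * (2 * (i : ℕ) + δ) := by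
      have := hbw i
      rw [hw] at this
      simp only at this
      omega
    rw [h1, pow_one, Nat.add_mul_mod_self_left]
    exact Nat.mod_eq_of_lt htp
  -- the words
  have hS : ∀ a : Fin e → Fin T, (∑ j, (a j : ℕ)) + e ≤ e * T := by
    intro a
    have h1 : ∑ j : Fin e, ((a j : ℕ) + 1) ≤ ∑ _j : Fin e, T :=
      Finset.sum_le_sum fun j _ => (a j).2
    rw [Finset.sum_add_distrib] at h1
    simpa using h1
  have hlt : ∀ (a : Fin e → Fin T) (j : Fin e), (a j : ℕ) < l + 1 := by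
    intro a j
    have := (a j).2
    omega
  set Vw : (Fin e → Fin T) → List (Fin (l + 1)) := fun a =>
    List.ofFn (fun j => (⟨(a j : ℕ), hlt a j⟩ : Fin (l + 1))) with hVw
  set Lw : (Fin e → Fin T) → Fin (l + 1) := fun a => ⟨l - ∑ j, (a j : ℕ), by omega⟩ with hLw
  have hVL : ∀ a, ∀ x ∈ Vw a, x < Lw a := by
    intro a x hx
    rw [hVw] at hx
    simp only at hx
    rw [List.mem_ofFn] at hx
    obtain ⟨j, rfl⟩ := hx
    rw [hLw]
    simp only
    rw [Fin.mk_lt_mk]
    have h1 := (a j).2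
    have h2 := hS a
    omega
  have hlen : ∀ a, (Vw a ++ [Lw a]).length = e + 1 := by
    intro a
    rw [List.length_append, hVw]
    simp
  have hsum : ∀ a, ((Vw a ++ [Lw a]).map w).sum = p * (2 * l + (e + 1) * δ) + (e + 1) * (t + 1) := by
    intro a
    obtain ⟨s, hs'⟩ : ∃ s, s = ∑ j, (a j : ℕ) := ⟨_, rfl⟩
    have h0 := hS a
    rw [← hs'] at h0
    obtain ⟨r, hr⟩ : ∃ r, l = s + r := ⟨l - s, by omega⟩
    rw [List.map_append, List.sum_append, hVw]
    simp only
    rw [List.map_ofFn, List.sum_ofFn, List.map_singleton, List.sum_singleton, hLw, hw]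
    simp only [Function.comp]
    rw [← hs', Finset.sum_add_distrib, ← Finset.mul_sum, Finset.sum_add_distrib, ← Finset.mul_sum, ← hs',
      show l - s = r by omega, hr]
    simp only [Finset.sum_const, Finset.card_univ, Fintype.card_fin, smul_eq_mul]
    ring
  have hWinj : ∀ a a', Vw a ++ [Lw a] = Vw a' ++ [Lw a'] → a = a' := by
    intro a a' h
    have h1 : Vw a = Vw a' := List.append_inj_left' h rfl
    rw [hVw] at h1
    simp only at h1
    have h2 := List.ofFn_injective h1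
    funext j
    have h3 := congrFun h2 j
    exact Fin.ext (by simpa using congrArg Fin.val h3)
  have hnest := fun a => nested hV σ w hσV hσw (Vw a ++ [Lw a]) (by simp)
  choose τ hτV hτw hτe using hnest
  refine ⟨τ, fun a => ⟨hτV a, by rw [← hsum a]; exact hτw a, ?_⟩, ?_⟩
  · intro u hu
    rw [wc_eq]
    by_contra h
    rw [hτe a] at h
    have h1 := depth_PhiN b hb1 _ hL hhom (RN (Vw a ++ [Lw a])) (e + 1) (fun u hu => by
      rw [(RN_perm _ u hu).length_eq, hlen a]) _ h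
    omega
  · intro c hc
    funext a0
    by_contra hca
    set P : Al (Fin (l + 1)) := ∑ a, c a • RN (Vw a ++ [Lw a]) with hP
    have hcoP : co P (Vw a0 ++ [Lw a0]) = c a0 := by
      rw [hP, Lead2.co_sum, Finset.sum_eq_single a0]
      · rw [co_smul, RN_delta _ _ _ _ (hVL a0) (hVL a0), if_pos rfl, mul_one]
      · intro a _ ha
        rw [co_smul, RN_delta _ _ _ _ (hVL a) (hVL a0), if_neg (fun h => ha (hWinj _ _ h).symm), mul_zero]
      · intro h
        exact absurd (Finset.mem_univ _) h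
    obtain ⟨v, hv, hvc⟩ := Pool.Agent.U691.DM.dep_class p 1 t (e + 1) hp ht (by simpa using he)
      (l + 1) b hbmod hbinj _ hL hhom hne P (Vw a0 ++ [Lw a0]) (by rw [hcoP]; exact hca) (by rw [hlen a0])
    rw [hlen a0] at hvc
    apply hv
    have h1 : PhiN (fun i => toA (σ i)) P = toA (∑ a, c a • τ a) := by
      rw [hP, map_sum, map_sum]
      refine Finset.sum_congr rfl fun a _ => ?_
      rw [map_smul, map_smul, hτe a]
    rw [h1]
    have h2 := hc (FreeMonoid.ofList v) (by rw [FreeMonoid.toList_ofList]; omega)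
    rw [wc_eq, FreeMonoid.toList_ofList] at h2
    exact h2

end Pool.Agent.U691.GT
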