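import Pool.Agent.U691.GT.Main
import Pool.Agent.Helper392_GT.Dim2
import Pool.Agent.H777R4.DM.R0

/-!
# Dimensions of the depth graded pieces (helper691)
-/

set_option autoImplicit false

namespace Pool.Agent.U691.GT

open Pool.Agent.H777R4.DM
open Pool.Agent.Helper392_GT (F2 wt DepthGE wordCoeff IharaClosed HasSoule grtSub dep mem_dep)

attribute [local instance 100] LieRing.ofAssociativeRing

/-- the coefficients at the words with `d` letters `x₁` vanish if those at the words which end with `x₁` do -/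
lemma all_zero {ψ : A} (hψ : ψ ∈ LieX) (h0 : co ψ [0] = 0) (d : ℕ)
    (h : ∀ v : List ℕ, v.length = d → co ψ (wordX v) = 0) (u : List (Fin 2)) (hu : u.count 1 = d) :
    co ψ u = 0 := by
  have key : ∀ k, dp d (run k ψ) = 0 := by
    intro k
    induction k with
    | zero =>
      apply al_ext
      intro l
      rw [co_dp, co_zero]
      by_cases hl : l.length = d
      · rw [if_pos hl, co_run]
        simpa using h l hl
      · rw [if_neg hl]
    | succ k ih =>
      have h1 := congrArg (dp d) (Pool.Agent.H777R4.DM.R0.taskR0 ψ hψ h0 k)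
      rw [map_smul, map_neg, dp_dl, ih, map_zero, neg_zero] at h1
      rcases smul_eq_zero.mp h1 with h2 | h2
      · have h3 : (0 : ℚ) < (k : ℚ) + 1 := by positivity
        exact absurd h2 h3.ne'
      · exact h2
  have h1 := wordX_strip u
  have h2 : (strip u).1.length = d := by
    rw [← hu]
    conv_rhs => rw [← h1]
    rw [word_count]
  have h3 : co (dp d (run (strip u).2 ψ)) (strip u).1 = co 0 (strip u).1 := by rw [key]
  rw [co_dp, if_pos h2, co_run, h1, co_zero] at h3
  exact h3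

/-- the list of exponents with given sum -/
def vf (e N : ℕ) (f : Fin e → Fin N) : List ℕ :=
  List.ofFn (fun j => (f j : ℕ)) ++ [N - (e + 1) - ∑ j, (f j : ℕ)]

/-- the coefficients at the words of weight `N` with `e + 1` letters `x₁` which end with `x₁` -/
noncomputable def Lam (e N : ℕ) : F2 ℚ →ₗ[ℚ] ((Fin e → Fin N) → ℚ) :=
  LinearMap.pi (fun f => (Pool.Agent.H777R4.DM.R0.coL (wordX (vf e N f))) ∘ₗ (toA : F2 ℚ →ₗ[ℚ] A))

lemma Lam_apply (e N : ℕ) (σ : F2 ℚ) (f : Fin e → Fin N) :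
    Lam e N σ f = co (toA σ) (wordX (vf e N f)) := rfl

lemma exists_vf (e N : ℕ) (v : List ℕ) (hv : v.length = e + 1) (hN : v.sum + (e + 1) = N) :
    ∃ f : Fin e → Fin N, vf e N f = v := by
  rcases List.eq_nil_or_concat v with h | ⟨V, t, h⟩
  · rw [h] at hv
    simp at hv
  · rw [h] at hv hN
    rw [List.concat_eq_append] at hv hN h
    rw [List.length_append, List.length_singleton] at hv
    have he : e = V.length := by omega
    subst he
    rw [List.sum_append, List.sum_singleton] at hN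
    have hle : ∀ j : Fin V.length, V.get j < N := by
      intro j
      have h1 : V.get j ≤ V.sum := List.single_le_sum (fun x _ => Nat.zero_le x) _ (List.get_mem V j)
      omega
    refine ⟨fun j => ⟨V.get j, hle j⟩, ?_⟩
    unfold vf
    simp only
    rw [← List.sum_ofFn, List.ofFn_get, h]
    congr 2
    omega

lemma Lam_ker (e N : ℕ) {σ : F2 ℚ} (hw : σ ∈ wt ℚ N) (hd : DepthGE ℚ (e + 1) σ) (h : Lam e N σ = 0) :
    DepthGE ℚ (e + 2) σ := by
  intro u hu
  rcases Nat.lt_or_ge (u.toList.count 1) (e + 1) with h1 | h1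
  · exact hd u h1
  · rw [wc_eq]
    refine all_zero (toA_mem σ) ?_ (e + 1) ?_ _ (by omega)
    · have h2 := hd (FreeMonoid.ofList [0]) (by
        rw [FreeMonoid.toList_ofList]
        simp)
      rwa [wc_eq, FreeMonoid.toList_ofList] at h2
    · intro v hv
      by_contra h2
      have h3 := wt_lenHom N hw _ h2
      rw [wordX_length, hv] at h3
      obtain ⟨f, hf⟩ := exists_vf e N v hv h3
      have h4 := congrFun h f
      rw [Lam_apply, hf] at h4
      exact h2 h4

/-- the dimension of the depth `d` part of `V` in weight `N`: elements of `V` of weight `N` and depth at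
least `d`, modulo depth at least `d + 1` -/
noncomputable def dimD (V : Submodule ℚ (F2 ℚ)) (N d : ℕ) : ℕ :=
  Module.finrank ℚ ((V ⊓ wt ℚ N ⊓ dep ℚ d).map (dep ℚ (d + 1)).mkQ)

instance X_fin (V : Submodule ℚ (F2 ℚ)) (N d : ℕ) :
    Module.Finite ℚ ((V ⊓ wt ℚ N ⊓ dep ℚ d : Submodule ℚ (F2 ℚ))) := by
  have h : V ⊓ wt ℚ N ⊓ dep ℚ d ≤ wt ℚ N := inf_le_left.trans inf_le_right
  exact Submodule.finiteDimensional_of_le h

lemma dimD_mono {V W : Submodule ℚ (F2 ℚ)} (h : V ≤ W) (N d : ℕ) : dimD V N d ≤ dimD W N d := by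
  unfold dimD
  exact Submodule.finrank_mono (Submodule.map_mono (inf_le_inf_right _ (inf_le_inf_right _ h)))

lemma dimD_le (V : Submodule ℚ (F2 ℚ)) (N e : ℕ) : dimD V N (e + 1) ≤ N ^ e := by
  unfold dimD
  set X : Submodule ℚ (F2 ℚ) := V ⊓ wt ℚ N ⊓ dep ℚ (e + 1) with hX
  set g1 : X →ₗ[ℚ] (F2 ℚ ⧸ dep ℚ (e + 1 + 1)) := (dep ℚ (e + 1 + 1)).mkQ ∘ₗ X.subtype with hg1
  set g2 : X →ₗ[ℚ] ((Fin e → Fin N) → ℚ) := Lam e N ∘ₗ X.subtype with hg2
  have h1 : X.map (dep ℚ (e + 1 + 1)).mkQ = LinearMap.range g1 := by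
    rw [hg1, LinearMap.range_comp, Submodule.range_subtype]
  rw [h1]
  have h2 := LinearMap.finrank_range_add_finrank_ker g1
  have h3 := LinearMap.finrank_range_add_finrank_ker g2
  have h4 : LinearMap.ker g2 ≤ LinearMap.ker g1 := by
    intro z hz
    rw [LinearMap.mem_ker] at hz ⊢
    rw [hg2, LinearMap.comp_apply] at hz
    rw [hg1, LinearMap.comp_apply, Submodule.mkQ_apply, Submodule.Quotient.mk_eq_zero]
    have h5 : (z : F2 ℚ) ∈ V ⊓ wt ℚ N ⊓ dep ℚ (e + 1) := z.2
    exact Lam_ker e N h5.1.2 h5.2 hz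
  have h5 := Submodule.finrank_mono h4
  have h6 : Module.finrank ℚ (LinearMap.range g2) ≤ N ^ e := by
    refine (Submodule.finrank_le _).trans ?_
    rw [Module.finrank_fintype_fun_eq_card]
    simp
  omega

lemma le_dimD (V : Submodule ℚ (F2 ℚ)) (hV : IharaClosed V) (hs : HasSoule V) (p : ℕ) (hp : p.Prime)
    (hp2 : p ≠ 2) (e l t : ℕ) (ht : 1 ≤ t) (he : (e + 1) * t < p) :
    (l / (e + 1)) ^ e ≤ dimD V (p * (2 * l + (e + 1) * (t % 2)) + (e + 1) * (t + 1)) (e + 1) := by
  obtain ⟨τ, hτ, hind⟩ := main V hV hs p hp hp2 e l t ht he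
  unfold dimD
  set N := p * (2 * l + (e + 1) * (t % 2)) + (e + 1) * (t + 1) with hN
  set X : Submodule ℚ (F2 ℚ) := V ⊓ wt ℚ N ⊓ dep ℚ (e + 1) with hX
  have hmem : ∀ a, τ a ∈ X := fun a => ⟨⟨(hτ a).1, (hτ a).2.1⟩, (hτ a).2.2⟩
  have hli : LinearIndependent ℚ (fun a : Fin e → Fin (l / (e + 1)) =>
      (⟨(dep ℚ (e + 1 + 1)).mkQ (τ a), Submodule.mem_map_of_mem (hmem a)⟩ :
        X.map (dep ℚ (e + 1 + 1)).mkQ)) := by
    rw [Fintype.linearIndependent_iff]
    intro c hc a
    have h1 := congrArg (fun z : X.map (dep ℚ (e + 1 + 1)).mkQ => (z : F2 ℚ ⧸ dep ℚ (e + 1 + 1))) hc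
    simp only [Submodule.coe_sum, Submodule.coe_smul, Submodule.coe_zero] at h1
    have h2 : (dep ℚ (e + 1 + 1)).mkQ (∑ a, c a • τ a) = 0 := by
      rw [map_sum, ← h1]
      refine Finset.sum_congr rfl fun b _ => ?_
      rw [map_smul]
    rw [Submodule.mkQ_apply, Submodule.Quotient.mk_eq_zero] at h2
    exact congrFun (hind c h2) a
  have h := hli.fintype_card_le_finrank
  simpa using h

end Pool.Agent.U691.GT
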